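import Pool.Agent.Q5.Helly.Lattice
import Pool.Agent.Q5.Helly.Characters

set_option autoImplicit false

namespace Pool.Agent.Results.MP_baf67b_al.HellyDimension

open Q5.Helly
open scoped Pointwise

variable {K : Type*} [Field K] {N : ℕ}

/-- The subgroup of a closed coset. -/
theorem exists_subgroup (G : Subgroup (Diag K N)) (C : Set (Diag K N)) (hC : IsClosedCoset G C) :
    ∃ H : Subgroup (Diag K N), H ≤ G ∧ IsZariskiClosed (H : Set (Diag K N)) ∧ C.Nonempty ∧ C ⊆ G ∧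
      (∀ x ∈ C, ∀ y, y ∈ C ↔ x⁻¹ * y ∈ H) := by
  obtain ⟨g, hg, H, hHG, hH, rfl⟩ := hC
  refine ⟨H, hHG, hH, ⟨g, ?_⟩, ?_, ?_⟩
  · rw [Set.mem_smul_set_iff_inv_smul_mem]
    simp
  · intro x hx
    rw [Set.mem_smul_set_iff_inv_smul_mem] at hx
    have h1 : g⁻¹ * x ∈ G := hHG hx
    have h2 := mul_mem hg h1
    simpa using h2
  · intro x hx y
    rw [Set.mem_smul_set_iff_inv_smul_mem] at hx ⊢
    simp only [smul_eq_mul, SetLike.mem_coe] at hx ⊢
    constructor
    · intro hy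
      have := mul_mem (inv_mem hx) hy
      have e : (g⁻¹ * x)⁻¹ * (g⁻¹ * y) = x⁻¹ * y := by group
      rwa [e] at this
    · intro hy
      have := mul_mem hx hy
      have e : (g⁻¹ * x) * (x⁻¹ * y) = g⁻¹ * y := by group
      rwa [e] at this

/-- The key step: if `X(G)` has `r` generators, then among more than `r` closed subgroups of `G`
one is redundant up to an index prime to `q`. -/
theorem exists_redundant {G : Subgroup (Diag K N)} {ι : Type*} [DecidableEq ι] (s : Finset ι)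
    (H : ι → Subgroup (Diag K N)) (hHG : ∀ i ∈ s, H i ≤ G)
    (hH : ∀ i ∈ s, IsZariskiClosed (H i : Set (Diag K N))) {r : ℕ} (hr : GeneratedBy G r)
    (hs : r < s.card) {q : ℕ} (hq : q.Prime) :
    ∃ j ∈ s, ∃ n : ℤ, ¬ (q : ℤ) ∣ n ∧
      ∀ x ∈ G, (∀ i ∈ s.erase j, x ∈ H i) → ∀ i ∈ s, x ^ n ∈ H i := by
  classical
  obtain ⟨S, hS, hgen⟩ := hr
  -- the generators
  let e : Fin r ≃ S := (Fintype.equivFinOfCardEq (by simpa using hS)).symm
  let φ : (Fin r → ℤ) → (G → Kˣ) := fun a => ∏ k, ((e k : G → Kˣ)) ^ (a k)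
  have hφadd : ∀ a b, φ (a + b) = φ a * φ b := by
    intro a b
    simp only [φ, Pi.add_apply, zpow_add, Finset.prod_mul_distrib]
  have hφzero : φ 0 = 1 := by simp [φ]
  have hφsmul : ∀ (n : ℤ) a, φ (n • a) = φ a ^ n := by
    intro n a
    simp only [φ, Pi.smul_apply, smul_eq_mul, ← Finset.prod_zpow, mul_comm n, zpow_mul]
  have hφsurj : ∀ χ ∈ X G, ∃ a, φ a = χ := by
    intro χ hχ
    let R : Subgroup (G → Kˣ) :=
      { carrier := Set.range φ
        mul_mem' := by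
          rintro _ _ ⟨a, rfl⟩ ⟨b, rfl⟩
          exact ⟨a + b, hφadd a b⟩
        one_mem' := ⟨0, hφzero⟩
        inv_mem' := by
          rintro _ ⟨a, rfl⟩
          exact ⟨(-1 : ℤ) • a, by rw [hφsmul]; simp⟩ }
    have hR : X G ≤ R := by
      rw [← hgen, Subgroup.closure_le]
      intro χ hχ
      refine ⟨Pi.single (e.symm ⟨χ, hχ⟩) 1, ?_⟩
      simp only [φ]
      rw [Fintype.prod_eq_single (e.symm ⟨χ, hχ⟩)]
      · simp
      · intro k hk
        simp [hk]
    exact hR hχ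
  -- the annihilators
  let A : ι → Submodule ℤ (Fin r → ℤ) := fun i =>
    { carrier := {a | ∀ h : G, h.1 ∈ H i → φ a h = 1}
      add_mem' := by
        intro a b ha hb h hh
        rw [hφadd, Pi.mul_apply, ha h hh, hb h hh, one_mul]
      zero_mem' := by
        intro h _
        rw [hφzero]
        rfl
      smul_mem' := by
        intro n a ha h hh
        rw [hφsmul, Pi.pow_apply, ha h hh, one_zpow] }
  have hAmem : ∀ i a, a ∈ A i ↔ ∀ h : G, h.1 ∈ H i → φ a h = 1 := fun i a => Iff.rfl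
  obtain ⟨j, hj, n, hn, hjn⟩ := exists_index s A hs hq
  refine ⟨j, hj, n, hn, ?_⟩
  intro x hxG hx i hi
  -- characters in the sum of the annihilators are trivial
  have hsup : ∀ a ∈ (s.erase j).sup A, φ a ⟨x, hxG⟩ = 1 := by
    let D : Submodule ℤ (Fin r → ℤ) :=
      { carrier := {a | φ a ⟨x, hxG⟩ = 1}
        add_mem' := by
          intro a b ha hb
          simp only [Set.mem_ofPred_eq] at ha hb ⊢
          rw [hφadd, Pi.mul_apply, ha, hb, one_mul]
        zero_mem' := by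
          simp only [Set.mem_ofPred_eq]
          rw [hφzero]
          rfl
        smul_mem' := by
          intro n a ha
          simp only [Set.mem_ofPred_eq] at ha ⊢
          rw [hφsmul, Pi.pow_apply, ha, one_zpow] }
    have hD : (s.erase j).sup A ≤ D := by
      refine Finset.sup_le fun k hk a ha => ?_
      exact ha ⟨x, hxG⟩ (hx k hk)
    exact fun a ha => hD ha
  have hxn : ((⟨x, hxG⟩ : G) ^ n).1 = x ^ n := rfl
  rw [← hxn]
  refine mem_of_forall_character (hHG i hi) (hH i hi) _ ?_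
  intro χ hχ htriv
  obtain ⟨a, rfl⟩ := hφsurj χ hχ
  have haA : a ∈ A i := by
    rw [hAmem]
    exact htriv
  have h1 := hsup _ (hjn a (Finset.le_sup (f := A) hi haA))
  rw [hφsmul, Pi.pow_apply] at h1
  have h2 : φ a ((⟨x, hxG⟩ : G) ^ n) = (φ a ⟨x, hxG⟩) ^ n :=
    map_zpow (MonoidHom.mk' (φ a) hχ.1) _ _
  rw [h2, h1]

/-- The Helly property of order `1 + rk X(G)`. -/
theorem hellyProperty (G : Subgroup (Diag K N)) : HellyProperty G (1 + rk G) := by
  classical
  have hgen : GeneratedBy G (rk G) := Nat.sInf_mem (exists_generatedBy G)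
  intro 𝓕 h𝓕 hempty
  have hne : (𝓕.powerset.filter (fun 𝓖 => (⋂ C ∈ 𝓖, C) = (∅ : Set (Diag K N)))).Nonempty :=
    ⟨𝓕, Finset.mem_filter.mpr ⟨Finset.mem_powerset_self 𝓕, hempty⟩⟩
  obtain ⟨𝓖, h𝓖, hmin⟩ := Finset.exists_min_image _ Finset.card hne
  simp only [Finset.mem_filter, Finset.mem_powerset] at h𝓖 hmin
  obtain ⟨hsub, h𝓖e⟩ := h𝓖
  refine ⟨𝓖, hsub, ?_, h𝓖e⟩
  by_contra hcon
  push Not at hcon
  -- the subfamilies without one member have a common point
  have hpt : ∀ C ∈ 𝓖, ∃ x, ∀ D ∈ 𝓖, D ≠ C → x ∈ D := by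
    intro C hC
    have h1 : (⋂ D ∈ 𝓖.erase C, D) ≠ (∅ : Set (Diag K N)) := by
      intro h
      exact absurd (Finset.card_erase_lt_of_mem hC)
        (not_lt.mpr (hmin _ ⟨(Finset.erase_subset _ _).trans hsub, h⟩))
    obtain ⟨x, hx⟩ := Set.nonempty_iff_ne_empty.mpr h1
    rw [Set.mem_iInter₂] at hx
    exact ⟨x, fun D hD hDC => hx D (Finset.mem_erase.mpr ⟨hDC, hD⟩)⟩
  choose! p hp using hpt
  choose! H hHG hHc hCne hCG hHC using
    (fun (C : Set (Diag K N)) (hC : C ∈ 𝓖) => exists_subgroup G C (h𝓕 C (hsub hC)))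
  obtain ⟨C0, hC0⟩ : 𝓖.Nonempty := by
    rw [← Finset.card_pos]
    omega
  obtain ⟨g0, hg0⟩ := hCne C0 hC0
  set s := 𝓖.erase C0 with hs
  have hscard : rk G < s.card := by
    rw [hs, Finset.card_erase_of_mem hC0]
    omega
  have hs𝓖 : ∀ C ∈ s, C ∈ 𝓖 := fun C hC => Finset.mem_of_mem_erase hC
  have hsne : ∀ C ∈ s, C ≠ C0 := fun C hC => (Finset.mem_erase.mp hC).1
  set x0 := p C0 with hx0
  have hx0mem : ∀ C ∈ s, x0 ∈ C := fun C hC => hp C0 hC0 C (hs𝓖 C hC) (hsne C hC)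
  -- the common subgroup and the element
  set D : Subgroup (Diag K N) := (⨅ C ∈ s, H C) ⊔ H C0 with hD
  have hy : x0⁻¹ * g0 ∈ D := by
    by_contra hy
    have h1 : orderOf (QuotientGroup.mk (x0⁻¹ * g0) : Diag K N ⧸ D) ≠ 1 := by
      intro h
      rw [orderOf_eq_one_iff, QuotientGroup.eq_one_iff] at h
      exact hy h
    obtain ⟨q, hq, hdvd⟩ := Nat.exists_prime_and_dvd h1
    obtain ⟨C, hC, n, hn, hred⟩ := exists_redundant s H (fun C hC => hHG C (hs𝓖 C hC))
      (fun C hC => hHc C (hs𝓖 C hC)) hgen hscard hq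
    apply hn
    have hpC := hp C (hs𝓖 C hC)
    have h2 : (x0⁻¹ * p C) ^ n ∈ ⨅ C ∈ s, H C := by
      rw [Subgroup.mem_iInf]
      intro E
      rw [Subgroup.mem_iInf]
      intro hE
      refine hred (x0⁻¹ * p C) ?_ ?_ E hE
      · have hpG : p C ∈ G := hCG C0 hC0 (hpC C0 hC0 (hsne C hC).symm)
        have hxG : x0 ∈ G := hCG C (hs𝓖 C hC) (hx0mem C hC)
        exact mul_mem (inv_mem hxG) hpG
      · intro E hE
        have hEs := Finset.mem_of_mem_erase hE
        rw [← hHC E (hs𝓖 E hEs) x0 (hx0mem E hEs)]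
        exact hpC E (hs𝓖 E hEs) (Finset.mem_erase.mp hE).1
    have h3 : ((p C)⁻¹ * g0) ^ n ∈ H C0 := by
      apply zpow_mem
      rw [← hHC C0 hC0 (p C) (hpC C0 hC0 (hsne C hC).symm)]
      exact hg0
    have h4 : (x0⁻¹ * g0) ^ n ∈ D := by
      have e : (x0⁻¹ * g0) = (x0⁻¹ * p C) * ((p C)⁻¹ * g0) := by group
      rw [e, mul_zpow]
      exact mul_mem (Subgroup.mem_sup_left h2) (Subgroup.mem_sup_right h3)
    have h5 : (QuotientGroup.mk (x0⁻¹ * g0) : Diag K N ⧸ D) ^ n = 1 := by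
      rw [← QuotientGroup.mk_zpow, QuotientGroup.eq_one_iff]
      exact h4
    exact (Int.natCast_dvd_natCast.mpr hdvd).trans (orderOf_dvd_iff_zpow_eq_one.mpr h5)
  rw [hD, Subgroup.mem_sup] at hy
  obtain ⟨h, hh, k, hk, hhk⟩ := hy
  have hmem : x0 * h ∈ (⋂ C ∈ 𝓖, C) := by
    rw [Set.mem_iInter₂]
    intro C hC
    by_cases hCC : C = C0
    · subst hCC
      rw [hHC C hC g0 hg0]
      have e : g0⁻¹ * (x0 * h) = k⁻¹ := by
        have : g0 = x0 * (h * k) := by rw [hhk]; group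
        rw [this]
        group
      rw [e]
      exact inv_mem hk
    · have hCs : C ∈ s := Finset.mem_erase.mpr ⟨hCC, hC⟩
      rw [hHC C hC x0 (hx0mem C hCs)]
      have e : x0⁻¹ * (x0 * h) = h := by group
      rw [e]
      rw [Subgroup.mem_iInf] at hh
      have := hh C
      rw [Subgroup.mem_iInf] at this
      exact this hCs
  rw [h𝓖e] at hmem
  exact hmem

/-- `κ(G) ≤ 1 + rk X(G)` for every diagonalizable group `G`. -/
theorem result (K : Type*) [Field K] [IsAlgClosed K] (N : ℕ) (G : Subgroup (Diag K N))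
    (_hG : IsZariskiClosed (G : Set (Diag K N))) :
    IsLeast {n | GeneratedBy G n} (rk G) ∧ IsLeast {d | 1 ≤ d ∧ HellyProperty G d} (kappa G) ∧
      kappa G ≤ 1 + rk G := by
  have h : (1 + rk G) ∈ {d | 1 ≤ d ∧ HellyProperty G d} :=
    ⟨Nat.le_add_right _ _, hellyProperty G⟩
  exact ⟨⟨Nat.sInf_mem (exists_generatedBy G), fun n hn => Nat.sInf_le hn⟩,
    ⟨Nat.sInf_mem ⟨_, h⟩, fun d hd => Nat.sInf_le hd⟩, Nat.sInf_le h⟩

end Pool.Agent.Results.MP_baf67b_al.HellyDimension
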